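import Pool.Agent.W985.RG.Tep

/-!
# The lower bound for the tree evaluation problem
-/

namespace Pool.Agent.W985.RG

open Pool.Agent.W985.RK (Lf lf Lg Mt Rel Chk Ind tree_all)

/-- The tree lemma for all large degrees. -/
theorem tree_main (k H : ℕ) : ∃ N h : ℕ, ∀ D ≥ N, ∀ (K : Type) [Field K] (t : Fin D → K),
    Function.Injective t → ∀ p : Lf D h → Fin k → ℕ, ∃ (r : ℕ) (M : Mt k)
      (A B : Set (Lf D h)), H ≤ r ∧ Rel p M A B ∧ Ind t r A B := by
  classical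
  obtain ⟨N, hN⟩ := tree_all k (Fintype.card (Mt k) * H)
  refine ⟨N, Fintype.card (Mt k) * H, fun D hD K _ t ht p => ?_⟩
  obtain ⟨r, hr1, hr2⟩ := hN D K t ht p Set.univ (Lg.full hD _)
  obtain ⟨M, hM⟩ : ∃ M, H ≤ r M := by
    by_contra hcon
    push Not at hcon
    have h1 : ∑ M, r M < ∑ _M : Mt k, H := Finset.sum_lt_sum_of_nonempty
      ⟨fun _ _ => .eq, Finset.mem_univ _⟩ fun M _ => hcon M
    rw [Finset.sum_const, Finset.card_univ, smul_eq_mul] at h1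
    omega
  obtain ⟨A, B, -, -, hAB, hI⟩ := hr2 M
  exact ⟨r M, M, A, B, hM, hAB, hI⟩

/-- Prime numbers near the square root. -/
theorem exists_prime_sq (P : ℕ) : ∃ k₀ : ℕ, ∀ k ≥ k₀, ∃ p : ℕ, p.Prime ∧ P < p ∧
    p ^ 2 + 1 ≤ k ∧ k ≤ 4 * p ^ 2 := by
  refine ⟨(2 * (P + 1)) ^ 2 + 1, fun k hk => ?_⟩
  obtain ⟨s, hs⟩ : ∃ s, s = Nat.sqrt (k - 1) := ⟨_, rfl⟩
  have h1 : 2 * (P + 1) ≤ s := by
    rw [hs, Nat.le_sqrt']
    omega
  have h2 : s ^ 2 ≤ k - 1 := by rw [hs]; exact Nat.sqrt_le' _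
  have h3 : k - 1 < (s + 1) ^ 2 := by rw [hs]; exact Nat.lt_succ_sqrt' _
  obtain ⟨p, hp, hp1, hp2⟩ := Nat.exists_prime_lt_and_le_two_mul (s / 2) (by omega)
  refine ⟨p, hp, by omega, ?_, ?_⟩
  · have h4 : p ^ 2 ≤ s ^ 2 := Nat.pow_le_pow_left (by omega) 2
    have h5 : 1 ≤ p ^ 2 := Nat.one_le_pow _ _ hp.pos
    omega
  · have h4 : (s + 1) ^ 2 ≤ (2 * p) ^ 2 := Nat.pow_le_pow_left (by omega) 2
    have h5 : (2 * p) ^ 2 = 4 * p ^ 2 := by ring
    omega

/-- **The lower bound for the tree evaluation problem.** -/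
theorem tep (r e : ℕ) : ∃ h₀ : ℕ, ∀ h ≥ h₀, ∃ k₀ : ℕ, ∀ k ≥ k₀, ∀ (S : ℕ)
    (B : NBP (Var k h) (Fin k) S), B.ReadTimes r →
      (∀ x : Var k h → Fin k, BoolRoot h x → (B.Accepts x ↔ (eval h x).val = 1)) →
      k ^ e ≤ S := by
  classical
  obtain ⟨M, hM⟩ : ∃ M, M = r * 4 + 2 := ⟨_, rfl⟩
  obtain ⟨N, h1, htree⟩ := tree_main r (2 * (e * M) + 1)
  obtain ⟨m, hm⟩ : ∃ m, m = N + 1 := ⟨_, rfl⟩
  obtain ⟨D, hD⟩ : ∃ D, D = 2 ^ m := ⟨_, rfl⟩
  have hND : N ≤ D := by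
    rw [hD, hm]
    exact (Nat.le_succ N).trans Nat.lt_two_pow_self.le
  obtain ⟨C', hC'⟩ : ∃ C', C' = 4 ^ (r * 4 + 1) * (2 ^ Fintype.card (Lf D h1) *
    2 ^ Fintype.card (Lf D h1)) := ⟨_, rfl⟩
  refine ⟨Ht m h1 + 1, fun h hh => ?_⟩
  obtain ⟨j, rfl⟩ : ∃ j, h = Ht m h1 + j + 1 := ⟨h - (Ht m h1 + 1), by omega⟩
  obtain ⟨k₀, hk₀⟩ := exists_prime_sq (max D (C' * 4 ^ (e * M)))
  refine ⟨max k₀ 2, fun k hk S B hB hacc => ?_⟩
  obtain ⟨p, hp, hp1, hp2, hp3⟩ := hk₀ k ((le_max_left _ _).trans hk)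
  have hk2 : 2 ≤ k := (le_max_right _ _).trans hk
  have : Fact p.Prime := ⟨hp⟩
  have hDp : D ≤ p := (le_max_left _ _).trans hp1.le
  obtain ⟨t, ht⟩ : ∃ t : Fin D → ZMod p, t = fun i : Fin D => ((i : ℕ) : ZMod p) := ⟨_, rfl⟩
  have htinj : Function.Injective t := by
    intro i j hij
    rw [ht] at hij
    have h1 := (ZMod.natCast_eq_natCast_iff' _ _ _).1 hij
    rw [Nat.mod_eq_of_lt (by omega), Nat.mod_eq_of_lt (by omega)] at h1
    exact Fin.ext h1
  have eq : Bp m ≃ Fin D := Fintype.equivFinOfCardEq (by rw [card_bp, hD])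
  obtain ⟨code⟩ : Nonempty (Option (ZMod p × ZMod p) ↪ Fin k) :=
    Function.Embedding.nonempty_of_card_le (by
      rw [Fintype.card_option, Fintype.card_prod, ZMod.card, Fintype.card_fin]
      have : p * p = p ^ 2 := (sq p).symm
      omega)
  have hdec : ∀ v, Function.invFun code (code v) = v :=
    Function.leftInverse_invFun code.injective
  obtain ⟨dec, hdec'⟩ : ∃ dec, dec = Function.invFun code := ⟨_, rfl⟩
  rw [← hdec'] at hdec
  obtain ⟨one, hone⟩ : ∃ one : Fin k, one.val = 1 := ⟨⟨1, by omega⟩, rfl⟩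
  obtain ⟨zero, hzero⟩ : ∃ zero : Fin k, zero.val = 0 := ⟨⟨0, by omega⟩, rfl⟩
  let W : (Lf D h1 → ZMod p) → Var k (Ht m h1 + j + 1) → Fin k := fun z =>
    node (fun a _ => if (dec a).isSome then one else zero)
      (pad zero j (inst code dec eq t h1 0 z)) fun _ => zero
  have hWeval : ∀ z, eval (Ht m h1 + j + 1) (W z) = if Chk t h1 z then one else zero := by
    intro z
    show (if (dec (eval (Ht m h1 + j) (pad zero j (inst code dec eq t h1 0 z)))).isSome then one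
      else zero) = _
    rw [eval_pad, eval_inst code dec eq t hdec (by omega), hdec]
    by_cases hz : Chk t h1 z
    · rw [if_pos hz, if_pos hz]
      rfl
    · rw [if_neg hz, if_neg hz]
      rfl
  have hWbool : ∀ z, BoolRoot (Ht m h1 + j + 1) (W z) := by
    intro z q
    show (if (dec q.1).isSome then one else zero).val ≤ 1
    split_ifs
    · exact hone.le
    · rw [hzero]
      exact Nat.zero_le _
  have hiff : ∀ z, B.Accepts (W z) ↔ Chk t h1 z := by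
    intro z
    rw [hacc _ (hWbool z), hWeval]
    by_cases hz : Chk t h1 z
    · rw [if_pos hz]
      exact ⟨fun _ => hz, fun _ => hone⟩
    · rw [if_neg hz, hzero]
      exact ⟨fun h => absurd h (by norm_num), fun h => absurd h hz⟩
  have key := prog_lower (B := B) (w := W)
    (pos := fun x _ => (.inr (false, ppos j (lpos eq h1 x)) : Var k (Ht m h1 + j + 1))) (k := r)
    (H := 2 * (e * M) + 1) (t := t) (htree D hND (ZMod p) t htinj) (by
      intro z z' i hi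
      rcases i with q | ⟨b, i⟩
      · exact absurd rfl hi
      · cases b with
        | false =>
          obtain ⟨v, h3, h4⟩ := pad_diff zero j _ _ i hi
          obtain ⟨x, h5, h6⟩ := inst_diff code dec eq t h1 0 z z' v h4
          exact ⟨x, h6, Or.inl (by rw [h3, h5])⟩
        | true => exact absurd rfl hi) (by
      intro x _ x' _ h3
      exact lpos_inj eq h1 x x' (ppos_inj j _ _ (Prod.mk.inj (Sum.inr.inj h3)).2)) hB
    fun z hz => (hiff z).1 hz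
  have hfil : (Finset.univ.filter fun z : Lf D h1 → ZMod p => Chk t h1 z ∧ B.Accepts (W z)) =
      Finset.univ.filter fun z : Lf D h1 → ZMod p => Chk t h1 z := by
    ext z
    rw [Finset.mem_filter, Finset.mem_filter, hiff]
    tauto
  rw [hfil, ZMod.card, ← hC', ← hM] at key
  have hpos : 0 < (Finset.univ.filter fun z : Lf D h1 → ZMod p => Chk t h1 z).card :=
    Finset.card_pos.2 ⟨0, Finset.mem_filter.2 ⟨Finset.mem_univ _, Chk.zero⟩⟩
  rw [mul_comm] at key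
  have key2 : p ^ (2 * (e * M) + 1) ≤ S ^ M * C' := Nat.le_of_mul_le_mul_right key hpos
  by_contra hcon
  push Not at hcon
  have h2 : S ^ M * C' ≤ 4 ^ (e * M) * p ^ (2 * (e * M)) * C' := by
    refine Nat.mul_le_mul_right _ ?_
    calc S ^ M ≤ (k ^ e) ^ M := Nat.pow_le_pow_left hcon.le M
      _ = k ^ (e * M) := (pow_mul _ _ _).symm
      _ ≤ (4 * p ^ 2) ^ (e * M) := Nat.pow_le_pow_left hp3 _
      _ = 4 ^ (e * M) * p ^ (2 * (e * M)) := by rw [mul_pow, ← pow_mul]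
  have h3 : 4 ^ (e * M) * p ^ (2 * (e * M)) * C' = p ^ (2 * (e * M)) * (C' * 4 ^ (e * M)) := by ring
  have h4 : p ^ (2 * (e * M)) * (C' * 4 ^ (e * M)) < p ^ (2 * (e * M)) * p :=
    Nat.mul_lt_mul_of_pos_left (lt_of_le_of_lt (le_max_right _ _) hp1) (Nat.pow_pos hp.pos)
  have h5 : p ^ (2 * (e * M) + 1) = p ^ (2 * (e * M)) * p := pow_succ _ _
  omega

end Pool.Agent.W985.RG
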