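import Pool.Agent.W985.RG.Cuts

/-!
# The lower bound for programs which accept codewords
-/

namespace Pool.Agent.W985.RG

open Pool.Agent.W985.RK (Lf lf lf_inj Lg Mt Rel Chk sm Ind on on_pos on_neg cuts tree_all)

variable {I : Type} {Γ : Type} {S D h : ℕ} {K : Type} [Field K]

/-- The leaves whose letters are avoided. -/
def tgt (c : Bool) (A E : Set (Lf D h)) : Set (Lf D h) := if c then E \ A else A

/-- The data of a cut walk: nodes, kinds of the segments and two sets of leaves. -/
abbrev Dt (S D h m : ℕ) : Type :=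
  (Fin (m + 1) → Fin S) × (Fin m → Bool × Bool) × Set (Lf D h) × Set (Lf D h)

/-- The data `d` describe a walk of the labelling `z`. -/
def Has (B : NBP I Γ S) (w : (Lf D h → K) → I → Γ) (pos : Lf D h → K → I) {m : ℕ}
    (z : Lf D h → K) (d : Dt S D h m) : Prop :=
  d.1 0 = B.start ∧ d.1 (Fin.last m) = B.accept ∧ ∀ j : Fin m, ∃ l,
    B.Walk (d.1 j.castSucc) l (d.1 j.succ) ∧ (∀ i a, some (i, a) ∈ l → w z i = a) ∧
    ∀ y ∈ tgt (d.2.1 j).1 d.2.2.1 d.2.2.2,
      ((d.2.1 j).2 = true → ∀ l', B.Walk (d.1 j.castSucc) l' (d.1 j.succ) →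
        pos y (z y) ∉ reads l') ∧
      ((d.2.1 j).2 = false → ∀ v, pos y v ∉ reads l)

omit [Field K] in
/-- **Mixing.** -/
theorem mixing {B : NBP I Γ S} {w : (Lf D h → K) → I → Γ} {pos : Lf D h → K → I} {m : ℕ}
    (hw : ∀ z z' i, w z i ≠ w z' i → ∃ x, z x ≠ z' x ∧ (i = pos x (z x) ∨ i = pos x (z' x)))
    {z z' : Lf D h → K} {d : Dt S D h m} (hz : Has B w pos z d) (hz' : Has B w pos z' d)
    (hzz : ∀ x, x ∉ d.2.2.1 → x ∉ d.2.2.2 → z x = z' x) {y : Lf D h → K}
    (hy1 : ∀ x ∈ d.2.2.1, y x = z x) (hy2 : ∀ x, x ∉ d.2.2.1 → y x = z' x) :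
    B.Accepts (w y) := by
  classical
  have key : ∀ j : Fin m, ∃ l, B.Walk (d.1 j.castSucc) l (d.1 j.succ) ∧
      ∀ i a, some (i, a) ∈ l → w y i = a := by
    intro j
    obtain ⟨l, h1, h2, h3⟩ := hz.2.2 j
    obtain ⟨l', h1', h2', h3'⟩ := hz'.2.2 j
    cases hc : (d.2.1 j).1 with
    | true =>
      refine ⟨l, h1, fun i a hi => ?_⟩
      rw [← h2 i a hi]
      by_contra hcon
      obtain ⟨x, hx1, hx2⟩ := hw _ _ _ hcon
      have hi' : i ∈ reads l := mem_reads.2 ⟨a, hi⟩
      have hxA : x ∉ d.2.2.1 := fun hx => hx1 (hy1 x hx)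
      have hxE : x ∈ d.2.2.2 := by
        by_contra hx
        exact hx1 ((hy2 x hxA).trans (hzz x hxA hx).symm)
      have hxt : x ∈ tgt (d.2.1 j).1 d.2.2.1 d.2.2.2 := by
        rw [hc]
        exact ⟨hxE, hxA⟩
      cases hs : (d.2.1 j).2 with
      | true =>
        rcases hx2 with hx2 | hx2
        · rw [hy2 x hxA] at hx2
          exact (h3' x hxt).1 hs l h1 (hx2 ▸ hi')
        · exact (h3 x hxt).1 hs l h1 (hx2 ▸ hi')
      | false =>
        rcases hx2 with hx2 | hx2
        · exact (h3 x hxt).2 hs _ (hx2 ▸ hi')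
        · exact (h3 x hxt).2 hs _ (hx2 ▸ hi')
    | false =>
      refine ⟨l', h1', fun i a hi => ?_⟩
      rw [← h2' i a hi]
      by_contra hcon
      obtain ⟨x, hx1, hx2⟩ := hw _ _ _ hcon
      have hi' : i ∈ reads l' := mem_reads.2 ⟨a, hi⟩
      have hxA : x ∈ d.2.2.1 := by
        by_contra hx
        exact hx1 (hy2 x hx)
      have hxt : x ∈ tgt (d.2.1 j).1 d.2.2.1 d.2.2.2 := by
        rw [hc]
        exact hxA
      cases hs : (d.2.1 j).2 with
      | true =>
        rcases hx2 with hx2 | hx2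
        · rw [hy1 x hxA] at hx2
          exact (h3 x hxt).1 hs l' h1' (hx2 ▸ hi')
        · exact (h3' x hxt).1 hs l' h1' (hx2 ▸ hi')
      | false =>
        rcases hx2 with hx2 | hx2
        · exact (h3' x hxt).2 hs _ (hx2 ▸ hi')
        · exact (h3' x hxt).2 hs _ (hx2 ▸ hi')
  have hall : ∀ j : Fin (m + 1), ∃ l, B.Walk B.start l (d.1 j) ∧
      ∀ i a, some (i, a) ∈ l → w y i = a := by
    intro j
    induction j using Fin.induction with
    | zero =>
      rw [hz.1]
      exact ⟨[], .nil _, fun i a hi => absurd hi List.not_mem_nil⟩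
    | succ j ih =>
      obtain ⟨l, h1, h2⟩ := ih
      obtain ⟨l', h1', h2'⟩ := key j
      refine ⟨l ++ l', h1.append h1', fun i a hi => ?_⟩
      rcases List.mem_append.1 hi with hi | hi
      · exact h2 i a hi
      · exact h2' i a hi
  obtain ⟨l, h1, h2⟩ := hall (Fin.last m)
  rw [hz.2.1] at h1
  exact ⟨l, h1, h2⟩

open Classical in
/-- A class of labellings with the same data is small. -/
theorem class_small [Fintype K] {B : NBP I Γ S} {w : (Lf D h → K) → I → Γ}
    {pos : Lf D h → K → I} {m H r : ℕ} {t : Fin D → K}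
    (hw : ∀ z z' i, w z i ≠ w z' i → ∃ x, z x ≠ z' x ∧ (i = pos x (z x) ∨ i = pos x (z' x)))
    (hsound : ∀ z, B.Accepts (w z) → Chk t h z) (d : Dt S D h m) (hr : H ≤ r)
    (hI : Ind t r d.2.2.1 d.2.2.2) :
    (Finset.univ.filter fun z : Lf D h → K => Chk t h z ∧ Has B w pos z d).card *
      Fintype.card K ^ H ≤ (Finset.univ.filter fun z : Lf D h → K => Chk t h z).card := by
  obtain ⟨φ, h1, h2, h3, h4⟩ := hI
  have hφ : ∀ (z z' : Lf D h → K) (c c' : Fin r → K), z + φ c = z' + φ c' →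
      z - z' = φ (c' - c) := by
    intro z z' c c' he
    rw [h1]
    rw [sub_eq_sub_iff_add_eq_add, he, add_comm]
  have hcard : (Finset.univ.filter fun z : Lf D h → K => Chk t h z ∧ Has B w pos z d).card *
      Fintype.card K ^ r ≤ (Finset.univ.filter fun z : Lf D h → K => Chk t h z).card := by
    have e1 : Fintype.card K ^ r = (Finset.univ : Finset (Fin r → K)).card := by
      rw [Finset.card_univ, Fintype.card_fun, Fintype.card_fin]
    rw [e1, ← Finset.card_product]
    refine Finset.card_le_card_of_injOn (fun q => q.1 + φ q.2) ?_ ?_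
    · rintro ⟨z, c⟩ hz
      rw [Finset.mem_coe, Finset.mem_product, Finset.mem_filter] at hz
      rw [Finset.mem_coe, Finset.mem_filter]
      exact ⟨Finset.mem_univ _, hz.1.2.1.add (h2 c).1⟩
    · rintro ⟨z, c⟩ hz ⟨z', c'⟩ hz' he
      rw [Finset.mem_coe, Finset.mem_product, Finset.mem_filter] at hz hz'
      have he' : z + φ c = z' + φ c' := he
      have hd := hφ z z' c c' he'
      have hag : ∀ x, x ∉ d.2.2.1 → x ∉ d.2.2.2 → z x = z' x := by
        intro x hx hx'
        have := congrFun hd x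
        rw [h3 _ x hx hx'] at this
        exact sub_eq_zero.1 this
      have hacc := mixing (y := fun x => if x ∈ d.2.2.1 then z x else z' x) hw hz.1.2.2
        hz'.1.2.2 hag (fun x hx => if_pos hx) (fun x hx => if_neg hx)
      have hchk := (hsound _ hacc).sub hz'.1.2.1
      have hon : ((fun x => if x ∈ d.2.2.1 then z x else z' x) - z') =
          on d.2.2.1 (φ (c' - c)) := by
        rw [← hd]
        funext x
        by_cases hx : x ∈ d.2.2.1
        · rw [on_pos hx]
          show (if x ∈ d.2.2.1 then z x else z' x) - z' x = z x - z' x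
          rw [if_pos hx]
        · rw [on_neg hx]
          show (if x ∈ d.2.2.1 then z x else z' x) - z' x = 0
          rw [if_neg hx, sub_self]
      rw [hon] at hchk
      have hc := h4 _ hchk
      have hc' : c' = c := sub_eq_zero.1 hc
      have hz0 : z = z' := by
        rw [hc'] at he'
        exact add_right_cancel he'
      rw [hz0, hc']
  refine le_trans ?_ hcard
  exact Nat.mul_le_mul_left _ (Nat.pow_le_pow_right Fintype.card_pos hr)

/-- Every accepted labelling has data. -/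
theorem exists_data [DecidableEq I] {B : NBP I Γ S} {w : (Lf D h → K) → I → Γ}
    {pos : Lf D h → K → I} {k H : ℕ} {t : Fin D → K}
    (htree : ∀ p : Lf D h → Fin k → ℕ, ∃ (r : ℕ) (M : Mt k) (A E : Set (Lf D h)), H ≤ r ∧
      Rel p M A E ∧ Ind t r A E)
    (hpos : ∀ x v x' v', pos x v = pos x' v' → x = x')
    (hB : B.ReadTimes k) (z : Lf D h → K) (hz : B.Accepts (w z)) :
    ∃ d : Dt S D h (k * 4 + 1), Has B w pos z d ∧ ∃ r, H ≤ r ∧ Ind t r d.2.2.1 d.2.2.2 := by
  classical
  obtain ⟨l, hl, hlw⟩ := hz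
  obtain ⟨p, hp0, hpT, hp⟩ := hl.nodes
  obtain ⟨T, hT⟩ : ∃ T, T = l.length := ⟨_, rfl⟩
  rw [← hT] at hpT hp
  have hhit : ∀ x : Lf D h, ∃ pt : Fin k → ℕ, ∀ a b, a ≤ b → b ≤ T →
      (∃ l, B.Walk (p a) l (p b) ∧ pos x (z x) ∈ reads l) → ∃ j, a < pt j ∧ pt j ≤ b := by
    intro x
    obtain ⟨pt, hpt⟩ := hit p T (fun a b hab hb => ⟨_, hp a b hab hb⟩) (pos x (z x)) k 0
      (Nat.zero_le _) (by
        intro l' hl'
        rw [hp0, hpT] at hl'
        exact hB l' hl' _)
    exact ⟨pt, fun a b => hpt a b (Nat.zero_le _)⟩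
  choose pt hpt using hhit
  obtain ⟨r, M, A, E, hr, hAE, hI⟩ := htree pt
  obtain ⟨τ, t1, t2, t3, t4, t5⟩ := cuts pt hAE T
  have hle : ∀ j : Fin (k * 4 + 1), τ j.castSucc ≤ τ j.succ := fun j =>
    t1 (Fin.le_def.2 (by simp))
  -- the kinds of the segments
  have hkind : ∀ j : Fin (k * 4 + 1), ∃ κ : Bool × Bool, ∃ l',
      B.Walk (p (τ j.castSucc)) l' (p (τ j.succ)) ∧ (∀ i a, some (i, a) ∈ l' → w z i = a) ∧
      ∀ y ∈ tgt κ.1 A E, (κ.2 = true → ∀ l'', B.Walk (p (τ j.castSucc)) l'' (p (τ j.succ)) →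
        pos y (z y) ∉ reads l'') ∧ (κ.2 = false → ∀ v, pos y v ∉ reads l') := by
    intro j
    have hseg := hp _ _ (hle j) (t4 j.succ)
    have hsegw : ∀ i a, some (i, a) ∈ (l.take (τ j.succ)).drop (τ j.castSucc) → w z i = a :=
      fun i a hi => hlw i a (List.mem_of_mem_take (List.mem_of_mem_drop hi))
    by_cases hE : ∃ y ∈ E, ∃ b, τ j.castSucc < pt y b ∧ pt y b ≤ τ j.succ
    · by_cases hA : ∃ x ∈ A, ∃ a, τ j.castSucc < pt x a ∧ pt x a ≤ τ j.succ
      · obtain ⟨x, hx, a, a1, a2⟩ := hA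
        obtain ⟨y, hy, b, b1, b2⟩ := hE
        have hone := t5 j x hx y hy a b a1 a2 b1 b2
        -- the segment has at most one edge
        have hlen : ((l.take (τ j.succ)).drop (τ j.castSucc)).length ≤ 1 := by
          rw [List.length_drop, List.length_take]
          omega
        have huniq : ∀ i i', i ∈ reads ((l.take (τ j.succ)).drop (τ j.castSucc)) →
            i' ∈ reads ((l.take (τ j.succ)).drop (τ j.castSucc)) → i = i' := by
          generalize (l.take (τ j.succ)).drop (τ j.castSucc) = l0 at hlen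
          intro i i' hi hi'
          obtain ⟨c, hc⟩ := mem_reads.1 hi
          obtain ⟨c', hc'⟩ := mem_reads.1 hi'
          cases l0 with
          | nil => exact absurd hc List.not_mem_nil
          | cons e l0 =>
            have : l0 = [] := by
              rw [List.length_cons] at hlen
              exact List.length_eq_zero_iff.1 (by omega)
            subst this
            rw [List.mem_singleton] at hc hc'
            have := hc.trans hc'.symm
            simp only [Option.some.injEq, Prod.mk.injEq] at this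
            exact this.1
        by_cases hbad : ∃ y ∈ E \ A, ∃ v, pos y v ∈
            reads ((l.take (τ j.succ)).drop (τ j.castSucc))
        · obtain ⟨y', hy', v, hv⟩ := hbad
          refine ⟨(false, false), _, hseg, hsegw, fun x' hx' => ⟨fun h => absurd h (by simp),
            fun _ v' hv' => ?_⟩⟩
          have hx'' : x' ∈ A := hx'
          have := hpos _ _ _ _ (huniq _ _ hv hv')
          subst this
          exact hy'.2 hx''
        · refine ⟨(true, false), _, hseg, hsegw, fun y' hy' => ⟨fun h => absurd h (by simp),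
            fun _ v' hv' => ?_⟩⟩
          have hy'' : y' ∈ E \ A := hy'
          exact hbad ⟨y', hy'', v', hv'⟩
      · refine ⟨(false, true), _, hseg, hsegw, fun x' hx' => ⟨fun _ l'' hl'' hmem => ?_,
          fun h => absurd h (by simp)⟩⟩
        have hx'' : x' ∈ A := hx'
        obtain ⟨a, ha⟩ := hpt x' _ _ (hle j) (t4 j.succ) ⟨l'', hl'', hmem⟩
        exact hA ⟨x', hx'', a, ha⟩
    · refine ⟨(true, true), _, hseg, hsegw, fun x' hx' => ⟨fun _ l'' hl'' hmem => ?_,
        fun h => absurd h (by simp)⟩⟩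
      have hx'' : x' ∈ E \ A := hx'
      obtain ⟨a, ha⟩ := hpt x' _ _ (hle j) (t4 j.succ) ⟨l'', hl'', hmem⟩
      exact hE ⟨x', hx''.1, a, ha⟩
  choose κ hκ using hkind
  refine ⟨(fun j => p (τ j), κ, A, E), ⟨?_, ?_, fun j => hκ j⟩, r, hr, hI⟩
  · show p (τ 0) = B.start
    rw [t2, hp0]
  · show p (τ (Fin.last _)) = B.accept
    rw [t3, hpT]

open Classical in
/-- **The lower bound for programs.** -/
theorem prog_lower [DecidableEq I] [Fintype K] {B : NBP I Γ S} {w : (Lf D h → K) → I → Γ}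
    {pos : Lf D h → K → I} {k H : ℕ} {t : Fin D → K}
    (htree : ∀ p : Lf D h → Fin k → ℕ, ∃ (r : ℕ) (M : Mt k) (A E : Set (Lf D h)), H ≤ r ∧
      Rel p M A E ∧ Ind t r A E)
    (hw : ∀ z z' i, w z i ≠ w z' i → ∃ x, z x ≠ z' x ∧ (i = pos x (z x) ∨ i = pos x (z' x)))
    (hpos : ∀ x v x' v', pos x v = pos x' v' → x = x')
    (hB : B.ReadTimes k) (hsound : ∀ z, B.Accepts (w z) → Chk t h z) :
    (Finset.univ.filter fun z : Lf D h → K => Chk t h z ∧ B.Accepts (w z)).card *
      Fintype.card K ^ H ≤ S ^ (k * 4 + 2) * (4 ^ (k * 4 + 1) * (2 ^ Fintype.card (Lf D h) *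
        2 ^ Fintype.card (Lf D h))) *
        (Finset.univ.filter fun z : Lf D h → K => Chk t h z).card := by
  have hex : ∀ z : Lf D h → K, ∃ d : Dt S D h (k * 4 + 1), B.Accepts (w z) →
      Has B w pos z d ∧ ∃ r, H ≤ r ∧ Ind t r d.2.2.1 d.2.2.2 := by
    intro z
    by_cases hz : B.Accepts (w z)
    · obtain ⟨d, hd⟩ := exists_data htree hpos hB z hz
      exact ⟨d, fun _ => hd⟩
    · refine ⟨(fun _ => B.start, fun _ => (true, true), ∅, ∅), fun h => absurd h hz⟩
  choose dat hdat using hex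
  have hcard : Fintype.card (Dt S D h (k * 4 + 1)) = S ^ (k * 4 + 2) * (4 ^ (k * 4 + 1) *
      (2 ^ Fintype.card (Lf D h) * 2 ^ Fintype.card (Lf D h))) := by
    rw [Fintype.card_prod, Fintype.card_prod, Fintype.card_prod, Fintype.card_fun,
      Fintype.card_fun, Fintype.card_prod, Fintype.card_bool, Fintype.card_set,
      Fintype.card_fin, Fintype.card_fin, Fintype.card_fin]
  rw [← hcard]
  have h1 : (Finset.univ.filter fun z : Lf D h → K => Chk t h z ∧ B.Accepts (w z)).card =
      ∑ d : Dt S D h (k * 4 + 1), ((Finset.univ.filter fun z : Lf D h → K =>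
        Chk t h z ∧ B.Accepts (w z)).filter fun z => dat z = d).card :=
    Finset.card_eq_sum_card_fiberwise fun z _ => Finset.mem_coe.2 (Finset.mem_univ _)
  have h0 : Fintype.card (Dt S D h (k * 4 + 1)) *
      (Finset.univ.filter fun z : Lf D h → K => Chk t h z).card =
      ∑ _d : Dt S D h (k * 4 + 1), (Finset.univ.filter fun z : Lf D h → K => Chk t h z).card := by
    rw [Finset.sum_const, Finset.card_univ, smul_eq_mul]
  rw [h1, Finset.sum_mul, h0]
  refine Finset.sum_le_sum fun d _ => ?_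
  rcases ((Finset.univ.filter fun z : Lf D h → K =>
        Chk t h z ∧ B.Accepts (w z)).filter fun z => dat z = d).eq_empty_or_nonempty with h2 | h2
  · rw [h2, Finset.card_empty, zero_mul]
    exact Nat.zero_le _
  · obtain ⟨z0, hz0⟩ := h2
    rw [Finset.mem_filter, Finset.mem_filter] at hz0
    obtain ⟨⟨-, -, hz1⟩, hz2⟩ := hz0
    obtain ⟨-, r, hr, hI⟩ := hdat z0 hz1
    rw [hz2] at hI
    refine le_trans (Nat.mul_le_mul_right _ (Finset.card_le_card ?_))
      (class_small hw hsound d hr hI)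
    intro z hz
    rw [Finset.mem_filter, Finset.mem_filter] at hz
    obtain ⟨⟨-, hz3, hz4⟩, hz5⟩ := hz
    rw [Finset.mem_filter]
    refine ⟨Finset.mem_univ _, hz3, ?_⟩
    rw [← hz5]
    exact (hdat z hz4).1

end Pool.Agent.W985.RG
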