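import Pool.Agent.W985.RG.Prog

/-!
# The tree evaluation problem
-/

namespace Pool.Agent.W985.RG

open Pool.Agent.W985.RK (Lf lf lf_inj Lg Mt Rel Chk sm rc sm_succ Ind tree_all)

/-- The input variables of the tree evaluation problem for the complete binary tree of height `h`
(`2 ^ h` leaves) and values in `Fin k`: one variable for each leaf, and for each inner node one
variable for each pair of values of its two children. -/
def Var (k : ℕ) : ℕ → Type
  | 0 => Unit
  | h + 1 => (Fin k × Fin k) ⊕ (Bool × Var k h)

instance Var.decEq (k : ℕ) : (h : ℕ) → DecidableEq (Var k h)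
  | 0 => inferInstanceAs (DecidableEq Unit)
  | h + 1 => by
    have := Var.decEq k h
    exact inferInstanceAs (DecidableEq ((Fin k × Fin k) ⊕ (Bool × Var k h)))

/-- The value of the root: the value of a leaf is its variable, and the value of an inner node is its
table at the pair of the values of its children. -/
def eval {k : ℕ} : (h : ℕ) → (Var k h → Fin k) → Fin k
  | 0, x => x ()
  | h + 1, x => x (.inl (eval h (fun v => x (.inr (false, v))), eval h fun v => x (.inr (true, v))))

/-- The table of the root (or the root, if it is a leaf) has only the values 0 and 1. -/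
def BoolRoot {k : ℕ} : (h : ℕ) → (Var k h → Fin k) → Prop
  | 0, x => (x ()).val ≤ 1
  | _ + 1, x => ∀ q, (x (.inl q)).val ≤ 1

/-- The input for a tree with given subtrees and a given table of the root. -/
def node {k h : ℕ} (f : Fin k → Fin k → Fin k) (x y : Var k h → Fin k) : Var k (h + 1) → Fin k :=
  fun v => Sum.elim (fun q : Fin k × Fin k => f q.1 q.2)
    (fun q : Bool × Var k h => if q.1 then y q.2 else x q.2) v

theorem eval_node {k h : ℕ} (f : Fin k → Fin k → Fin k) (x y : Var k h → Fin k) :
    eval (h + 1) (node f x y) = f (eval h x) (eval h y) := rfl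

/-- The leaves of the binary tree of height `m`. -/
def Bp : ℕ → Type
  | 0 => Unit
  | m + 1 => Bool × Bp m

instance Bp.fintype : (m : ℕ) → Fintype (Bp m)
  | 0 => inferInstanceAs (Fintype Unit)
  | m + 1 => by
    have := Bp.fintype m
    exact inferInstanceAs (Fintype (Bool × Bp m))

theorem card_bp : ∀ m, Fintype.card (Bp m) = 2 ^ m := by
  intro m
  induction m with
  | zero => rfl
  | succ m ih =>
    have h1 : Fintype.card (Bp (m + 1)) = Fintype.card (Bool × Bp m) :=
      Fintype.card_congr (Equiv.refl _)
    rw [h1, Fintype.card_prod, Fintype.card_bool, ih, pow_succ]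
    ring

section

variable {K : Type} [Field K]

/-- Adding values. -/
def vadd : Option (K × K) → Option (K × K) → Option (K × K)
  | some p, some q => some (p + q)
  | _, _ => none

/-- The sum of values. -/
def vsum : (m : ℕ) → (Bp m → Option (K × K)) → Option (K × K)
  | 0, u => u ()
  | m + 1, u => vadd (vsum m fun y => u (false, y)) (vsum m fun y => u (true, y))

open Classical in
theorem vsum_eq : ∀ (m : ℕ) (P : Bp m → Prop) (q : Bp m → K × K),
    vsum m (fun y => if P y then some (q y) else none) =
      if (∀ y, P y) then some (∑ y, q y) else none := by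
  intro m
  induction m with
  | zero =>
    intro P q
    by_cases h : ∀ y : Bp 0, P y
    · rw [if_pos h]
      show (if P () then some (q ()) else none) = _
      refine (if_pos (h ())).trans ?_
      congr 1
      exact (Finset.sum_singleton (fun x : Unit => q x) ()).symm
    · rw [if_neg h]
      exact if_neg fun h' => h fun _ => h'
  | succ m ih =>
    intro P q
    have h1 := ih (fun y => P (false, y)) (fun y => q (false, y))
    have h2 := ih (fun y => P (true, y)) (fun y => q (true, y))
    show vadd (vsum m fun y => if P (false, y) then some (q (false, y)) else none)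
      (vsum m fun y => if P (true, y) then some (q (true, y)) else none) = _
    rw [h1, h2]
    by_cases g1 : ∀ y, P (false, y)
    · by_cases g2 : ∀ y, P (true, y)
      · have g3 : ∀ y : Bp (m + 1), P y := by
          rintro ⟨b, y⟩
          cases b
          · exact g1 y
          · exact g2 y
        rw [if_pos g1, if_pos g2, if_pos g3]
        show some ((∑ y, q (false, y)) + ∑ y, q (true, y)) = _
        congr 1
        have : ∑ y : Bp (m + 1), q y = ∑ b : Bool, ∑ y : Bp m, q (b, y) :=
          Fintype.sum_prod_type (f := q)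
        rw [this, Fintype.sum_bool, add_comm]
      · have g3 : ¬∀ y : Bp (m + 1), P y := fun h => g2 fun y => h (true, y)
        rw [if_pos g1, if_neg g2, if_neg g3]
        rfl
    · have g3 : ¬∀ y : Bp (m + 1), P y := fun h => g1 fun y => h (false, y)
      rw [if_neg g1, if_neg g3]
      rfl

open Classical in
/-- The value of the last node of a gadget. -/
noncomputable def top (c : K) : Option (K × K) → Option (K × K)
  | some q => if q.2 = 0 then some (q.1, c * q.1) else none
  | none => none

variable {k : ℕ} (code : Option (K × K) → Fin k) (dec : Fin k → Option (K × K))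

/-- The gadget which adds `2 ^ m` values. -/
def gad {h : ℕ} : (m : ℕ) → (Option (K × K) → Option (K × K)) → (Bp m → Var k h → Fin k) →
    Var k (h + m) → Fin k
  | 0, _, xs => xs ()
  | m + 1, f, xs => node (fun a b => code (f (vadd (dec a) (dec b))))
      (gad m id fun y => xs (false, y)) (gad m id fun y => xs (true, y))

theorem eval_gad_id (hdec : ∀ v, dec (code v) = v) {h : ℕ} : ∀ (m : ℕ)
    (xs : Bp m → Var k h → Fin k) (u : Bp m → Option (K × K)),
    (∀ y, eval h (xs y) = code (u y)) → eval (h + m) (gad code dec m id xs) = code (vsum m u) := by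
  intro m
  induction m with
  | zero =>
    intro xs u hu
    exact hu ()
  | succ m ih =>
    intro xs u hu
    show code (id (vadd (dec (eval (h + m) (gad code dec m id fun y => xs (false, y))))
      (dec (eval (h + m) (gad code dec m id fun y => xs (true, y)))))) = _
    rw [ih _ _ fun y => hu (false, y), ih _ _ fun y => hu (true, y), hdec, hdec]
    rfl

theorem eval_gad (hdec : ∀ v, dec (code v) = v) {h : ℕ} (m : ℕ)
    (f : Option (K × K) → Option (K × K)) (xs : Bp (m + 1) → Var k h → Fin k)
    (u : Bp (m + 1) → Option (K × K)) (hu : ∀ y, eval h (xs y) = code (u y)) :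
    eval (h + (m + 1)) (gad code dec (m + 1) f xs) = code (f (vsum (m + 1) u)) := by
  show code (f (vadd (dec (eval (h + m) (gad code dec m id fun y => xs (false, y))))
      (dec (eval (h + m) (gad code dec m id fun y => xs (true, y)))))) = _
  rw [eval_gad_id code dec hdec m _ _ fun y => hu (false, y),
    eval_gad_id code dec hdec m _ _ fun y => hu (true, y), hdec, hdec]
  rfl

/-- The position of a variable of a subtree in the gadget. -/
def gpos {h : ℕ} : (m : ℕ) → Bp m → Var k h → Var k (h + m)
  | 0, _, v => v
  | m + 1, y, v => .inr (y.1, gpos m y.2 v)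

theorem gpos_inj {h : ℕ} : ∀ (m : ℕ) (y y' : Bp m) (v v' : Var k h),
    gpos m y v = gpos m y' v' → y = y' ∧ v = v' := by
  intro m
  induction m with
  | zero =>
    intro y y' v v' hv
    exact ⟨rfl, hv⟩
  | succ m ih =>
    rintro ⟨b, y⟩ ⟨b', y'⟩ v v' hv
    have h1 := Sum.inr.inj hv
    have h2 := Prod.mk.inj h1
    obtain ⟨h3, h4⟩ := ih _ _ _ _ h2.2
    exact ⟨Prod.ext h2.1 h3, h4⟩

theorem gad_diff {h : ℕ} : ∀ (m : ℕ) (f : Option (K × K) → Option (K × K))
    (xs xs' : Bp m → Var k h → Fin k) (i : Var k (h + m)),
    gad code dec m f xs i ≠ gad code dec m f xs' i →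
      ∃ y v, i = gpos m y v ∧ xs y v ≠ xs' y v := by
  intro m
  induction m with
  | zero =>
    intro f xs xs' i hi
    exact ⟨(), i, rfl, hi⟩
  | succ m ih =>
    intro f xs xs' i hi
    rcases i with q | ⟨b, i⟩
    · exact absurd rfl hi
    · cases b with
      | false =>
        obtain ⟨y, v, h1, h2⟩ := ih id (fun y => xs (false, y)) (fun y => xs' (false, y)) i hi
        exact ⟨(false, y), v, by rw [h1]; rfl, h2⟩
      | true =>
        obtain ⟨y, v, h1, h2⟩ := ih id (fun y => xs (true, y)) (fun y => xs' (true, y)) i hi
        exact ⟨(true, y), v, by rw [h1]; rfl, h2⟩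

/-- The heights of the binary trees. -/
def Ht (m : ℕ) : ℕ → ℕ
  | 0 => 0
  | h + 1 => Ht m h + m

variable {m D : ℕ} (e : Bp m ≃ Fin D) (t : Fin D → K)

/-- The hard inputs. -/
noncomputable def inst : (h : ℕ) → K → (Lf D h → K) → Var k (Ht m h) → Fin k
  | 0, c, z => fun _ => code (some (z (), c * z ()))
  | h + 1, c, z => gad code dec m (top c) fun y => inst h (t (e y)) fun x => z (lf (e y) x)

/-- The positions of the leaves. -/
def lpos : (h : ℕ) → Lf D h → Var k (Ht m h)
  | 0, _ => ()
  | h + 1, x => gpos m (e.symm x.1) (lpos h x.2)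

theorem lpos_inj : ∀ (h : ℕ) (x x' : Lf D h), lpos (k := k) e h x = lpos e h x' → x = x' := by
  intro h
  induction h with
  | zero => intro x x' _; rfl
  | succ h ih =>
    rintro ⟨i, x⟩ ⟨i', x'⟩ hx
    obtain ⟨h1, h2⟩ := gpos_inj m _ _ _ _ hx
    exact Prod.ext (e.symm.injective h1) (ih _ _ h2)

theorem inst_diff : ∀ (h : ℕ) (c : K) (z z' : Lf D h → K) (i : Var k (Ht m h)),
    inst code dec e t h c z i ≠ inst code dec e t h c z' i → ∃ x, i = lpos e h x ∧ z x ≠ z' x := by
  intro h
  induction h with
  | zero =>
    intro c z z' i hi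
    refine ⟨(), rfl, fun hz => hi ?_⟩
    show code (some (z (), c * z ())) = code (some (z' (), c * z' ()))
    rw [hz]
  | succ h ih =>
    intro c z z' i hi
    obtain ⟨y, v, h1, h2⟩ := gad_diff code dec m _ _ _ i hi
    obtain ⟨x, h3, h4⟩ := ih _ _ _ v h2
    refine ⟨lf (e y) x, ?_, h4⟩
    rw [h1, h3]
    show gpos m y _ = gpos m (e.symm (e y)) _
    rw [Equiv.symm_apply_apply]
    rfl

open Classical in
theorem eval_inst (hdec : ∀ v, dec (code v) = v) (hm : m ≠ 0) : ∀ (h : ℕ) (c : K)
    (z : Lf D h → K), eval (Ht m h) (inst code dec e t h c z) =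
      code (if Chk t h z then some (sm z, c * sm z) else none) := by
  intro h
  induction h with
  | zero =>
    intro c z
    show code (some (z (), c * z ())) = _
    have h1 : sm z = z () := Finset.sum_singleton (fun x : Unit => z x) ()
    rw [h1, if_pos]
    exact trivial
  | succ h ih =>
    intro c z
    obtain ⟨m', rfl⟩ := Nat.exists_eq_succ_of_ne_zero hm
    refine (eval_gad code dec hdec m' (top c) _ _ fun y => ih (t (e y))
      fun x => z (lf (e y) x)).trans ?_
    congr 1
    rw [vsum_eq (m' + 1) (fun y => Chk t h fun x => z (lf (e y) x))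
      (fun y => (sm fun x => z (lf (e y) x), t (e y) * sm fun x => z (lf (e y) x)))]
    have hall : (∀ y, Chk t h fun x => z (lf (e y) x)) ↔ ∀ i, Chk t h fun x => z (lf i x) := by
      constructor
      · intro hy i
        have := hy (e.symm i)
        rwa [Equiv.apply_symm_apply] at this
      · intro hy y
        exact hy _
    have hsum : (∑ y, ((sm fun x => z (lf (e y) x), t (e y) * sm fun x => z (lf (e y) x)) : K × K)) =
        (sm z, rc t z) := by
      rw [sm_succ]
      unfold rc
      rw [e.sum_comp fun i => ((sm fun x => z (lf i x), t i * sm fun x => z (lf i x)) : K × K)]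
      refine Prod.ext ?_ ?_
      · rw [Prod.fst_sum]
      · rw [Prod.snd_sum]
    rw [hsum]
    by_cases h1 : ∀ i, Chk t h fun x => z (lf i x)
    · rw [if_pos (hall.2 h1)]
      show (if rc t z = 0 then some (sm z, c * sm z) else none) = _
      by_cases h2 : rc t z = 0
      · rw [if_pos h2, if_pos]
        exact ⟨h2, h1⟩
      · rw [if_neg h2, if_neg]
        exact fun h => h2 h.1
    · rw [if_neg (fun h => h1 (hall.1 h)), if_neg (fun h => h1 h.2)]
      rfl

end

/-- Enlarging the height. -/
def pad {k : ℕ} (a : Fin k) {h : ℕ} : (j : ℕ) → (Var k h → Fin k) → Var k (h + j) → Fin k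
  | 0, x => x
  | j + 1, x => node (fun a _ => a) (pad a j x) fun _ => a

theorem eval_pad {k : ℕ} (a : Fin k) {h : ℕ} : ∀ (j : ℕ) (x : Var k h → Fin k),
    eval (h + j) (pad a j x) = eval h x := by
  intro j
  induction j with
  | zero => intro x; rfl
  | succ j ih => intro x; exact ih x

/-- The positions in the enlarged tree. -/
def ppos {k h : ℕ} : (j : ℕ) → Var k h → Var k (h + j)
  | 0, v => v
  | j + 1, v => .inr (false, ppos j v)

theorem ppos_inj {k h : ℕ} : ∀ (j : ℕ) (v v' : Var k h), ppos j v = ppos j v' → v = v' := by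
  intro j
  induction j with
  | zero => intro v v' hv; exact hv
  | succ j ih =>
    intro v v' hv
    exact ih _ _ (Prod.mk.inj (Sum.inr.inj hv)).2

theorem pad_diff {k : ℕ} (a : Fin k) {h : ℕ} : ∀ (j : ℕ) (x x' : Var k h → Fin k)
    (i : Var k (h + j)), pad a j x i ≠ pad a j x' i → ∃ v, i = ppos j v ∧ x v ≠ x' v := by
  intro j
  induction j with
  | zero => intro x x' i hi; exact ⟨i, rfl, hi⟩
  | succ j ih =>
    intro x x' i hi
    rcases i with q | ⟨b, i⟩
    · exact absurd rfl hi
    · cases b with
      | false =>
        obtain ⟨v, h1, h2⟩ := ih x x' i hi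
        exact ⟨v, by rw [h1]; rfl, h2⟩
      | true => exact absurd rfl hi

end Pool.Agent.W985.RG
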